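import Pool.Agent.W42.RG.Defs

/-!
LX-NILW: nilpotency of the adjoint action modulo an ideal.
-/

set_option autoImplicit false

namespace Pool.Agent.W290.LX

open Pool.Agent.W42.RG

theorem t_NILW (hJ : S_JAC) : S_NILW := by
  intro 𝔤 _ _ _ A hA K hK V W hW hAW
  let P : Submodule ℝ 𝔤 := K.toSubmodule
  have hV : ∀ Z : 𝔤, P ≤ P.comap (LieAlgebra.ad ℝ 𝔤 Z : Module.End ℝ 𝔤) := by
    intro Z Y hY
    exact K.lie_mem hY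
  have hAP : P ≤ P.comap (A : 𝔤 →ₗ[ℝ] 𝔤) := fun Y hY => (hK Y).2 hY
  let a : Module.End ℝ (𝔤 ⧸ P) := P.mapQ P (A : 𝔤 →ₗ[ℝ] 𝔤) hAP
  let x : Module.End ℝ (𝔤 ⧸ P) := P.mapQ P (LieAlgebra.ad ℝ 𝔤 V : Module.End ℝ 𝔤) (hV V)
  let w : Module.End ℝ (𝔤 ⧸ P) := P.mapQ P (LieAlgebra.ad ℝ 𝔤 W : Module.End ℝ 𝔤) (hV W)
  have ha : ∀ Y : 𝔤, a (P.mkQ Y) = P.mkQ (A Y) := fun Y => rfl
  have hx : ∀ Y : 𝔤, x (P.mkQ Y) = P.mkQ ⁅V, Y⁆ := fun Y => rfl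
  have hw : ∀ Y : 𝔤, w (P.mkQ Y) = P.mkQ ⁅W, Y⁆ := fun Y => rfl
  have h1 : w * a = a * x - x * a := by
    apply Submodule.linearMap_qext
    ext Y
    show w (a (P.mkQ Y)) = a (x (P.mkQ Y)) - x (a (P.mkQ Y))
    rw [ha, hw, hx, ha, hx, ← map_sub]
    congr 1
    rw [hW, sub_lie, hA]
  have h2 : a * w = w * a := by
    apply Submodule.linearMap_qext
    ext Y
    show a (w (P.mkQ Y)) = w (a (P.mkQ Y))
    rw [hw, ha, ha, hw, hA, ← sub_eq_zero, ← map_sub, ← sub_lie, Submodule.mkQ_apply,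
      Submodule.Quotient.mk_eq_zero]
    exact lie_mem_left ℝ 𝔤 K _ _ hAW
  obtain ⟨m, hm⟩ := hJ (𝔤 ⧸ P) a (w * a) x h1 (by rw [← mul_assoc, h2, mul_assoc])
  refine ⟨m, ?_⟩
  have h3 : w ^ m * a ^ m = 0 := by
    rw [← (show Commute w a from h2.symm).mul_pow]
    exact hm
  have h4 : ∀ (k : ℕ) (Y : 𝔤), ∃ Z : 𝔤, (a ^ k) (P.mkQ Z) = P.mkQ Y := by
    intro k
    induction k with
    | zero => intro Y; exact ⟨Y, rfl⟩
    | succ k ih =>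
      intro Y
      obtain ⟨Z, hZ⟩ := ih Y
      refine ⟨A.symm Z, ?_⟩
      rw [pow_succ]
      show (a ^ k) (a (P.mkQ (A.symm Z))) = P.mkQ Y
      rw [ha, A.apply_symm_apply, hZ]
  have h5 : ∀ (k : ℕ) (Y : 𝔤), (w ^ k) (P.mkQ Y) =
      P.mkQ (((LieAlgebra.ad ℝ 𝔤 W) ^ k) Y) := by
    intro k
    induction k with
    | zero => intro Y; rfl
    | succ k ih =>
      intro Y
      rw [pow_succ, pow_succ]
      show (w ^ k) (w (P.mkQ Y)) = P.mkQ (((LieAlgebra.ad ℝ 𝔤 W) ^ k) ⁅W, Y⁆)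
      rw [hw, ih]
  intro Y
  obtain ⟨Z, hZ⟩ := h4 m Y
  have h6 : (w ^ m) (P.mkQ Y) = 0 := by
    rw [← hZ]
    exact LinearMap.congr_fun h3 (P.mkQ Z)
  rw [h5, Submodule.mkQ_apply, Submodule.Quotient.mk_eq_zero] at h6
  exact h6

end Pool.Agent.W290.LX
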